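import Mathlib

/-! Derivations of a field with prescribed values on a transcendence basis. -/

set_option autoImplicit false

namespace Pool.Agent.U394.RD

open MvPolynomial

theorem isAlgebraic_mv {σ κ : Type} [Field κ] [Algebra ℂ κ] (g : σ → κ)
    (hg : IsTranscendenceBasis ℂ g) [Algebra (MvPolynomial σ ℂ) κ]
    (h : ∀ p, algebraMap (MvPolynomial σ ℂ) κ p = aeval g p) :
    Algebra.IsAlgebraic (MvPolynomial σ ℂ) κ := by
  have := hg.isAlgebraic
  refine Algebra.IsAlgebraic.of_ringHom_of_comp_eq (S := Algebra.adjoin ℂ (Set.range g)) (B := κ)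
    (hg.1.aevalEquiv : MvPolynomial σ ℂ →+* Algebra.adjoin ℂ (Set.range g)) (RingHom.id κ)
    hg.1.aevalEquiv.surjective Function.injective_id ?_
  ext x
  · simp [h]
  · simp [h]

theorem exists_derivation {σ κ : Type} [Field κ] [Algebra ℂ κ] (g : σ → κ)
    (hg : IsTranscendenceBasis ℂ g) (f : σ → κ) : ∃ D : Derivation ℂ κ κ, ∀ j, D (g j) = f j := by
  let : Algebra (MvPolynomial σ ℂ) κ := (aeval g).toRingHom.toAlgebra
  have hmap : ∀ p, algebraMap (MvPolynomial σ ℂ) κ p = aeval g p := fun p => rfl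
  have : IsScalarTower ℂ (MvPolynomial σ ℂ) κ := IsScalarTower.of_algebraMap_eq (fun c => by
    rw [hmap]; simp)
  have : FaithfulSMul (MvPolynomial σ ℂ) κ := (faithfulSMul_iff_algebraMap_injective _ _).mpr hg.1
  have : Algebra.IsAlgebraic (MvPolynomial σ ℂ) κ := isAlgebraic_mv g hg hmap
  let := FractionRing.liftAlgebra (MvPolynomial σ ℂ) κ
  have : IsScalarTower (MvPolynomial σ ℂ) (FractionRing (MvPolynomial σ ℂ)) κ :=
    FractionRing.isScalarTower_liftAlgebra (MvPolynomial σ ℂ) κ
  have : Algebra.IsAlgebraic (FractionRing (MvPolynomial σ ℂ)) κ :=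
    (IsFractionRing.comap_isAlgebraic_iff (A := MvPolynomial σ ℂ)).mp inferInstance
  have : CharZero (FractionRing (MvPolynomial σ ℂ)) := by
    have : Function.Injective (algebraMap ℂ (FractionRing (MvPolynomial σ ℂ))) :=
      (algebraMap ℂ (FractionRing (MvPolynomial σ ℂ))).injective
    exact charZero_of_injective_algebraMap this
  have : Algebra.IsSeparable (FractionRing (MvPolynomial σ ℂ)) κ := inferInstance
  have : Algebra.FormallyEtale (FractionRing (MvPolynomial σ ℂ)) κ :=
    Algebra.FormallyEtale.of_isSeparable _ _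
  have : Algebra.FormallyEtale (MvPolynomial σ ℂ) (FractionRing (MvPolynomial σ ℂ)) :=
    Algebra.FormallyEtale.of_isLocalization (nonZeroDivisors (MvPolynomial σ ℂ))
  have : Algebra.FormallyEtale (MvPolynomial σ ℂ) κ :=
    Algebra.FormallyEtale.comp _ (FractionRing (MvPolynomial σ ℂ)) _
  have hb := KaehlerDifferential.isBaseChange_of_formallyEtale ℂ (MvPolynomial σ ℂ) κ
  let D0 : Derivation ℂ (MvPolynomial σ ℂ) κ := mkDerivation ℂ f
  let L := hb.lift D0.liftKaehlerDifferential
  refine ⟨L.compDer (KaehlerDifferential.D ℂ κ), fun j => ?_⟩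
  have h1 : g j = algebraMap (MvPolynomial σ ℂ) κ (X j) := by rw [hmap, aeval_X]
  change L (KaehlerDifferential.D ℂ κ (g j)) = f j
  rw [h1, ← KaehlerDifferential.map_D ℂ ℂ, hb.lift_eq,
    Derivation.liftKaehlerDifferential_comp_D, mkDerivation_X]

end Pool.Agent.U394.RD
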