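import Pool.Agent.U220.RD.Stm
import Pool.Agent.U394.RD.Der

/-! Project RD, package BIR: the `u i` generate the field. -/

set_option autoImplicit false

namespace Pool.Agent.U394.RD

open Pool.Agent.U220.RD Polynomial

section aux

variable {κ : Type} [Field κ] [Algebra ℂ κ]

theorem deriv_mem_of_poly (K M : IntermediateField ℂ κ) (hKM : K ≤ M) (D : Derivation ℂ κ κ)
    (hD : ∀ y ∈ K, D y ∈ K) (x : κ) (hx : x ∈ M) (p : K[X]) :
    D (aeval x p) - aeval x (derivative p) * D x ∈ M := by
  induction p using Polynomial.induction_on' with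
  | add p q hp hq =>
    rw [map_add, map_add, derivative_add, map_add]
    have := M.add_mem hp hq
    convert this using 1
    ring
  | monomial n c =>
    rw [aeval_monomial, derivative_monomial, aeval_monomial, Derivation.leibniz,
      Derivation.leibniz_pow]
    have h1 : algebraMap K κ c = (c : κ) := rfl
    have h2 : algebraMap K κ (c * (n : K)) = (c : κ) * (n : κ) := by
      rw [map_mul, h1, map_natCast]
    rw [h1, h2]
    simp only [smul_eq_mul, nsmul_eq_mul]
    have h3 : (c : κ) * ((n : κ) * (x ^ (n - 1) * D x)) + x ^ n * D (c : κ) -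
        (c : κ) * (n : κ) * x ^ (n - 1) * D x = x ^ n * D (c : κ) := by ring
    rw [h3]
    exact M.mul_mem (pow_mem hx n) (hKM (hD _ c.2))

theorem deriv_mem_of_algebraic (K M : IntermediateField ℂ κ) (hKM : K ≤ M) (D : Derivation ℂ κ κ)
    (hD : ∀ y ∈ K, D y ∈ K) (x : κ) (hx : x ∈ M) (halg : IsAlgebraic K x) : D x ∈ M := by
  have h1 := deriv_mem_of_poly K M hKM D hD x hx (minpoly K x)
  rw [minpoly.aeval, map_zero, zero_sub] at h1
  have hsep : (minpoly K x).Separable := (minpoly.irreducible halg.isIntegral).separable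
  have h2 : aeval x (derivative (minpoly K x)) ≠ 0 :=
    hsep.aeval_derivative_ne_zero (minpoly.aeval K x)
  have h3 : aeval x (derivative (minpoly K x)) ∈ M := by
    rw [aeval_eq_sum_range]
    refine M.sum_mem fun i _ => ?_
    rw [Algebra.smul_def]
    exact M.mul_mem (hKM (SetLike.coe_mem _)) (pow_mem hx i)
  have h4 : D x = - ((aeval x (derivative (minpoly K x)))⁻¹ *
      (-(aeval x (derivative (minpoly K x)) * D x))) := by
    field_simp
  rw [h4]
  exact M.neg_mem (M.mul_mem (M.inv_mem h3) h1)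

theorem deriv_adjoin {s : Set κ} (D : Derivation ℂ κ κ)
    (hs : ∀ y ∈ s, D y ∈ IntermediateField.adjoin ℂ s) :
    ∀ y ∈ IntermediateField.adjoin ℂ s, D y ∈ IntermediateField.adjoin ℂ s := by
  intro y hy
  induction hy using IntermediateField.adjoin_induction with
  | mem x hx => exact hs x hx
  | algebraMap c => rw [D.map_algebraMap]; exact zero_mem _
  | add x y _ _ h1 h2 => rw [map_add]; exact add_mem h1 h2
  | inv x hx h1 =>
    rw [Derivation.leibniz_inv, smul_eq_mul]
    exact mul_mem (neg_mem (pow_mem (inv_mem hx) 2)) h1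
  | mul x y hx hy h1 h2 =>
    rw [Derivation.leibniz, smul_eq_mul, smul_eq_mul]
    exact add_mem (mul_mem hx h2) (mul_mem hy h1)

theorem rel_linear {ι W : Type} [AddCommGroup W] [Module ℂ W] (a : ι → W) (S : Finset ι)
    (hsp : Submodule.span ℂ (a '' (S : Set ι)) = ⊤) (z : ι → κ)
    (hrel : ∀ ψ : W →ₗ[ℂ] ℂ, ∑ i ∈ S, ψ (a i) • z i = 0) (τ : W →ₗ[ℂ] κ) :
    ∑ i ∈ S, z i * τ (a i) = 0 := by
  classical
  have hfin : Module.Finite ℂ W := ⟨⟨S.image a, by rw [Finset.coe_image]; exact hsp⟩⟩
  let b := Module.finBasis ℂ W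
  have h1 : ∀ i, τ (a i) = ∑ k, b.coord k (a i) • τ (b k) := by
    intro i
    conv_lhs => rw [← b.sum_repr (a i)]
    rw [map_sum]
    refine Finset.sum_congr rfl fun k _ => ?_
    rw [map_smul]
    rfl
  calc ∑ i ∈ S, z i * τ (a i) = ∑ i ∈ S, ∑ k, τ (b k) * (b.coord k (a i) • z i) := by
        refine Finset.sum_congr rfl fun i _ => ?_
        rw [h1, Finset.mul_sum]
        refine Finset.sum_congr rfl fun k _ => ?_
        simp only [Algebra.smul_def]
        ring
    _ = ∑ k, τ (b k) * ∑ i ∈ S, b.coord k (a i) • z i := by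
        rw [Finset.sum_comm]
        refine Finset.sum_congr rfl fun k _ => ?_
        rw [Finset.mul_sum]
    _ = 0 := by
        refine Finset.sum_eq_zero fun k _ => ?_
        rw [hrel, mul_zero]

end aux

theorem t_BIR : S_BIR := by
  intro ι W κ _ _ _ _ _ a S e t z hG hind
  obtain ⟨heS, hsp, hte, hrel, htop, htr⟩ := hG
  have hfin : Finite {i // i ∈ S.erase e} := inferInstance
  have hcard : Algebra.trdeg ℂ κ ≤ Cardinal.mk {i // i ∈ S.erase e} := by
    have h1 : (S.card : Cardinal) = ((S.erase e).card : Cardinal) + 1 := by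
      rw [← Finset.card_erase_add_one heS]
      push_cast
      rfl
    rw [h1, Cardinal.add_one_inj] at htr
    rw [htr, Cardinal.mk_fintype, Fintype.card_coe]
  have hB : IsTranscendenceBasis ℂ (fun i : {i // i ∈ S.erase e} => uu a t z i) :=
    hind.isTranscendenceBasis_of_trdeg_le_of_finite hcard
  set g : {i // i ∈ S.erase e} → κ := fun i => uu a t z i with hg
  set M : IntermediateField ℂ κ :=
    IntermediateField.adjoin ℂ (Set.range (fun i : {i // i ∈ S} => uu a t z i)) with hM
  set K : IntermediateField ℂ κ := IntermediateField.adjoin ℂ (Set.range g) with hK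
  have huM : ∀ i ∈ S, uu a t z i ∈ M := fun i hi =>
    IntermediateField.subset_adjoin _ _ ⟨⟨i, hi⟩, rfl⟩
  have hKM : K ≤ M := by
    rw [hK, IntermediateField.adjoin_le_iff]
    rintro _ ⟨i, rfl⟩
    exact huM _ (Finset.mem_of_mem_erase i.2)
  have halg : Algebra.IsAlgebraic K κ := hB.isAlgebraic_field
  have hxne : ∀ i ∈ S, t (a i) ≠ 0 := by
    intro i hi h0
    by_cases hie : i = e
    · rw [hie, hte] at h0
      exact one_ne_zero h0
    · have := hind.ne_zero ⟨i, Finset.mem_erase.mpr ⟨hie, hi⟩⟩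
      apply this
      change uu a t z i = 0
      unfold uu
      rw [h0]; ring
  -- the coordinates are in `M`
  have hxM : ∀ i ∈ S, t (a i) ∈ M := by
    intro i hi
    by_cases hie : i = e
    · rw [hie, hte]; exact M.one_mem
    classical
    have hi' : i ∈ S.erase e := Finset.mem_erase.mpr ⟨hie, hi⟩
    obtain ⟨D, hD⟩ := exists_derivation g hB (fun j => if (j : ι) = i then 1 else 0)
    have hDK : ∀ y ∈ K, D y ∈ K := by
      apply deriv_adjoin
      rintro _ ⟨j, rfl⟩
      rw [hD]
      split_ifs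
      · exact one_mem _
      · exact zero_mem _
    have h0 := rel_linear a S hsp z hrel t
    have h1 := rel_linear a S hsp z hrel ((D : κ →ₗ[ℂ] κ) ∘ₗ t)
    have h2 : ∑ j ∈ S, D (z j * t (a j)) = 0 := by rw [← map_sum, h0, map_zero]
    have h3 : ∀ j ∈ S, D (z j * t (a j)) =
        D (uu a t z j) / t (a j) - z j * ((D : κ →ₗ[ℂ] κ) ∘ₗ t) (a j) := by
      intro j hj
      have hx := hxne j hj
      have h4 : D (uu a t z j) = z j * t (a j) * D (t (a j)) + t (a j) * D (z j * t (a j)) := by
        have h5 : uu a t z j = (z j * t (a j)) * t (a j) := by unfold uu; ring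
        rw [h5, Derivation.leibniz, smul_eq_mul, smul_eq_mul]
      have h6 : ((D : κ →ₗ[ℂ] κ) ∘ₗ t) (a j) = D (t (a j)) := rfl
      rw [h4, h6]
      field_simp
      ring
    rw [Finset.sum_congr rfl h3, Finset.sum_sub_distrib, h1, sub_zero,
      ← Finset.add_sum_erase _ _ heS, ← Finset.add_sum_erase _ _ hi'] at h2
    have h4 : ∑ j ∈ (S.erase e).erase i, D (uu a t z j) / t (a j) = 0 := by
      refine Finset.sum_eq_zero fun j hj => ?_
      have hj1 : j ≠ i := Finset.ne_of_mem_erase hj
      have hj2 : j ∈ S.erase e := Finset.mem_of_mem_erase hj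
      have h5 := hD ⟨j, hj2⟩
      simp only [hj1, if_false] at h5
      rw [hg] at h5
      simp only at h5
      rw [h5, zero_div]
    have h5 : D (uu a t z i) = 1 := by
      have h6 := hD ⟨i, hi'⟩
      simpa [hg] using h6
    rw [h4, h5, hte, div_one, add_zero] at h2
    have h6 : D (uu a t z e) ∈ M :=
      deriv_mem_of_algebraic K M hKM D hDK _ (huM e heS) (halg.isAlgebraic _)
    have h7 : t (a i) = (-(D (uu a t z e)))⁻¹ := by
      have h8 : -(D (uu a t z e)) = 1 / t (a i) := by
        rw [neg_eq_iff_eq_neg, ← add_eq_zero_iff_eq_neg]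
        exact h2
      rw [h8, one_div, inv_inv]
    rw [h7]
    exact M.inv_mem (M.neg_mem h6)
  have hzM : ∀ i ∈ S, z i ∈ M := by
    intro i hi
    have h1 : z i = uu a t z i / t (a i) ^ 2 := by
      have := hxne i hi
      unfold uu
      field_simp
    rw [h1]
    exact M.div_mem (huM i hi) (pow_mem (hxM i hi) 2)
  rw [eq_top_iff, ← htop, IntermediateField.adjoin_le_iff]
  rintro y (⟨i, hi, rfl⟩ | ⟨i, hi, rfl⟩)
  · exact hxM i hi
  · exact hzM i hi

end Pool.Agent.U394.RD
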