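import Pool.Agent.U394.RD.INT
import Pool.Agent.U394.RD.BIR

/-! Project RD, package INTBIR: theorems `t_INT` and `t_BIR` of the namespace `Pool.Agent.U394.RD`. -/
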