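import Pool.Agent.U220.RD.Stm

/-! Project RD, package INT: `u e` is integral over the algebra generated by the other `u i`. -/

set_option autoImplicit false

namespace Pool.Agent.U394.RD

open Pool.Agent.U220.RD

theorem t_INT : S_INT := by
  intro ι W κ _ _ _ _ _ a S e t z heS hte hrel
  set A : Subalgebra ℂ κ := Algebra.adjoin ℂ (Set.range
      (fun i : {i // i ∈ S.erase e} => uu a t z i)) with hA
  by_contra hni
  have hue : uu a t z e = z e := by unfold uu; rw [hte]; ring
  -- the valuation subring
  have hx : uu a t z e ∉ (integralClosure (Subring.closure (A : Set κ)) κ).toSubring := by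
    intro h
    apply hni
    have h1 : IsIntegral (Subring.closure (A : Set κ)) (uu a t z e) := h
    obtain ⟨p, hp, hp0⟩ := h1
    have hcl : Subring.closure (A : Set κ) = A.toSubring := by
      apply le_antisymm
      · exact Subring.closure_le.mpr (fun x hx => hx)
      · exact fun x hx => Subring.subset_closure hx
    have key : ∀ B : Subring κ, B = A.toSubring → ∀ p : Polynomial B, p.Monic →
        Polynomial.eval₂ (algebraMap B κ) (uu a t z e) p = 0 → IsIntegral A (uu a t z e) := by
      rintro B rfl p hp hp0
      exact ⟨p, hp, hp0⟩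
    exact key _ hcl p hp hp0
  rw [← iInf_valuationSubring_superset] at hx
  have hx2 : ∃ V : ValuationSubring κ, (A : Set κ) ⊆ V.toSubring ∧ uu a t z e ∉ V := by
    by_contra hcon
    push Not at hcon
    apply hx
    rw [Subring.mem_iInf]
    intro V
    exact hcon V.1 V.2
  obtain ⟨O, hAO, hzO⟩ := hx2
  rw [hue] at hzO
  have hAO' : ∀ x ∈ A, O.valuation x ≤ 1 := fun x hx => (O.valuation_le_one_iff x).mpr (hAO hx)
  have hc : ∀ c : ℂ, O.valuation (algebraMap ℂ κ c) ≤ 1 := fun c => hAO' _ (A.algebraMap_mem c)
  have hc1 : ∀ c : ℂ, c ≠ 0 → O.valuation (algebraMap ℂ κ c) = 1 := by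
    intro c h0
    refine le_antisymm (hc c) ?_
    have h1 : O.valuation (algebraMap ℂ κ c) * O.valuation (algebraMap ℂ κ c⁻¹) = 1 := by
      rw [← map_mul, ← map_mul, mul_inv_cancel₀ h0, map_one, map_one]
    calc (1 : _) = O.valuation (algebraMap ℂ κ c) * O.valuation (algebraMap ℂ κ c⁻¹) := h1.symm
      _ ≤ O.valuation (algebraMap ℂ κ c) * 1 := by gcongr; exact hc _
      _ = _ := mul_one _
  have hz1 : 1 < O.valuation (z e) := by
    rw [← not_le, O.valuation_le_one_iff]
    exact hzO
  have hu : ∀ i ∈ S, i ≠ e → O.valuation (z i) * O.valuation (t (a i)) ^ 2 ≤ 1 := by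
    intro i hi hie
    rw [← map_pow, ← map_mul]
    exact hAO' _ (Algebra.subset_adjoin ⟨⟨i, Finset.mem_erase.mpr ⟨hie, hi⟩⟩, rfl⟩)
  -- `a e` is in the span of the `a i` with large `z i`
  set T : Set ι := {i | i ∈ S ∧ i ≠ e ∧ O.valuation (z e) ≤ O.valuation (z i)} with hT
  have hspan : a e ∈ Submodule.span ℂ (a '' T) := by
    by_contra hnot
    obtain ⟨ψ, hψ1, hψ2⟩ := Submodule.exists_le_ker_of_notMem hnot
    have h1 := hrel ψ
    rw [← Finset.add_sum_erase _ _ heS] at h1
    have h2 : ψ (a e) • z e = - ∑ i ∈ S.erase e, ψ (a i) • z i := by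
      rw [eq_neg_iff_add_eq_zero]; exact h1
    have h3 : O.valuation (∑ i ∈ S.erase e, ψ (a i) • z i) < O.valuation (z e) := by
      apply Valuation.map_sum_lt
      · exact (lt_trans zero_lt_one hz1).ne'
      · intro i hi
        rw [Finset.mem_erase] at hi
        by_cases hiT : i ∈ T
        · have : ψ (a i) = 0 := by
            have := hψ2 (Submodule.subset_span ⟨i, hiT, rfl⟩)
            simpa using this
          rw [this, zero_smul, map_zero]
          exact lt_trans zero_lt_one hz1
        · have h4 : O.valuation (z i) < O.valuation (z e) := by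
            by_contra h5
            exact hiT ⟨hi.2, hi.1, not_lt.mp h5⟩
          rw [Algebra.smul_def, map_mul]
          calc _ ≤ 1 * O.valuation (z i) := by gcongr; exact hc _
            _ = O.valuation (z i) := one_mul _
            _ < _ := h4
    have h4 : O.valuation (ψ (a e) • z e) = O.valuation (z e) := by
      rw [Algebra.smul_def, map_mul, hc1 _ hψ1, one_mul]
    rw [h2, Valuation.map_neg] at h4
    exact h3.ne h4
  -- some `t (a i)` is large
  have hlarge : ∃ i ∈ T, 1 ≤ O.valuation (t (a i)) := by
    by_contra hcon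
    push Not at hcon
    let N : Submodule ℂ W :=
      { carrier := {w | O.valuation (t w) < 1}
        add_mem' := by
          intro x y hx hy
          simp only [Set.mem_setOf_eq, map_add] at hx hy ⊢
          exact Valuation.map_add_lt _ hx hy
        zero_mem' := by simp
        smul_mem' := by
          intro c x hx
          simp only [Set.mem_setOf_eq, map_smul] at hx ⊢
          rw [Algebra.smul_def, map_mul]
          calc _ ≤ 1 * O.valuation (t x) := by gcongr; exact hc _
            _ = O.valuation (t x) := one_mul _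
            _ < _ := hx }
    have h1 : Submodule.span ℂ (a '' T) ≤ N := by
      rw [Submodule.span_le]
      rintro _ ⟨i, hi, rfl⟩
      exact hcon i hi
    have h2 : O.valuation (t (a e)) < 1 := h1 hspan
    rw [hte, map_one] at h2
    exact lt_irrefl _ h2
  obtain ⟨i, ⟨hiS, hie, hzi⟩, hti⟩ := hlarge
  have h1 := hu i hiS hie
  have h2 : 1 < O.valuation (z i) * O.valuation (t (a i)) ^ 2 := by
    calc (1 : _) < O.valuation (z e) := hz1
      _ ≤ O.valuation (z i) := hzi
      _ = O.valuation (z i) * 1 ^ 2 := by rw [one_pow, mul_one]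
      _ ≤ O.valuation (z i) * O.valuation (t (a i)) ^ 2 := by gcongr
  exact absurd h1 (not_le.mpr h2)

end Pool.Agent.U394.RD
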